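import Pool.Agent.Zk65.AU.Dual
import Pool.Agent.K3h67.LN.Char
import Pool.Agent.K3h4.LN.Fr

/-!
# Automorphic constituents of Galois representations attached to cuspidal automorphic
representations of `GL_n` over `ℚ`

Let `π` be an algebraic cuspidal automorphic representation of `GL_n` over `ℚ` which is not
essentially self-dual (`π~` is not a twist of `π` by a Hecke character), normalised so that
`π ⊗ |det| ^ (w / 2)` is unitary, and `ρ` an `ℓ`-adic representation attached to `π`. Take a filtration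
of `ρ` by subrepresentations, for instance one with irreducible steps, and a set `J` of steps such that
the sum of the steps in `J` is attached to an automorphic representation `τ` of the same weight `w`,
which is cuspidal or an isobaric sum of cuspidal representations, of degree less than `n`. We show:

* if `π` is regular or tempered at one prime, then the steps outside `J` are not permuted by duality up
  to twists by characters. In particular there is a step outside `J` which is not essentially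
  self-dual, and whose dimension is therefore at least three. So if `ρ` is reducible, then not all of
  its constituents are automorphic or essentially self-dual or dual to each other up to twists; for the
  irreducibility of `ρ` it would be enough to know that every constituent is automorphic **or**
  polarised;
* the degree of `τ` is not `n - 3`, if some triple product `L`-functions have no zero at `1`; they are
  known for `n = 5`. So if `n = 5` and `π` is regular, then `τ` is a character: no subquotient of `ρ` of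
  dimension at least two, except for `ρ`, is automorphic.

The case of an empty set `J` of the first part is in the file `LowRankNotSelfDual`.

The proof. Let `x`, `y` be the power sums of the parameters of `π` and `τ`, and `T` the family of the
other parameters, with power sums `t = x - y`; it is unitary. If the steps outside `J` are permuted by
duality up to twists, then by the `ℓ`-adic six exponentials theorem the twists are Dirichlet characters
up to a power of the norm. Let `K` be the group generated by these Dirichlet characters. At the primes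
at which they are trivial `t` is real in the unitary normalisation. So the sum over `c` in `K` of
`c |t| ^ 2 - c t ^ 2` vanishes identically. Its order at `1` is the sum over `K` of
`ord L(s, π × π~ ⊗ c) - ord L(s, π × π ⊗ c)`, which is at least `1`, and of
`ord L(s, τ × τ~ ⊗ c) - ord L(s, τ × τ ⊗ c)`; the latter sum is not negative, as it belongs to a
Dirichlet series whose coefficients have nonnegative real parts.

If the codimension is three, let `δ` be the product of the members of `T`, a Dirichlet character up to a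
power of the norm. Then `Λ²T = δ ⊗ T~` and `Λ²T = Λ²π - π × τ + Sym²τ`. Multiplying by `τ ⊗ δ⁻¹` we get
`ord L(s, Λ²π × τ ⊗ δ⁻¹) + ord L(s, Sym²τ × τ ⊗ δ⁻¹) = - ord L(s, τ × τ~) < 0`; for `n = 5` this
contradicts the non-vanishing of `L(s, Λ²π × τ)` at `s = 1` (Langlands-Shahidi method, Levi subgroup
of type `A_4 × A_1` of `E_6`).
-/

set_option autoImplicit false

namespace Pool.Agent.Results.MP_fa5bba_nt.AutomorphicConstituents

open Filter Topology NumberField Module Matrix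

/-! ### Automorphic side -/

/-- `c` is a Dirichlet character unramified outside `B`: there is a character `η` of the absolute
Galois group of `ℚ` with open kernel such that, for all prime numbers `p ∉ B` and all prime ideals `Q`
above `p` of the ring of algebraic integers, `η` is trivial on the inertia group at `Q`, and
`η g = c p` for all (arithmetic) Frobenius elements `g` at `Q`. -/
def IsTwist (B : Finset ℕ) (c : ℕ → ℂ) : Prop :=
  ∃ η : Gal(AlgebraicClosure ℚ/ℚ) →* ℂˣ, IsOpen (η.ker : Set Gal(AlgebraicClosure ℚ/ℚ)) ∧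
    ∀ p : ℕ, p.Prime → p ∉ B → ∀ Q : Ideal (𝓞 (AlgebraicClosure ℚ)),
      Q.IsPrime ∧ (p : 𝓞 (AlgebraicClosure ℚ)) ∈ Q →
      (∀ g : Gal(AlgebraicClosure ℚ/ℚ), (∀ x : 𝓞 (AlgebraicClosure ℚ), g • x - x ∈ Q) → η g = 1) ∧
      ∀ g : Gal(AlgebraicClosure ℚ/ℚ), (∀ x : 𝓞 (AlgebraicClosure ℚ), g • x - x ^ p ∈ Q) →
        (η g : ℂ) = c p

/-- the sum of the `k`-th powers of the members of `S` -/
noncomputable def pw (S : Multiset ℂ) (k : ℕ) : ℂ := (S.map (fun a => a ^ k)).sum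

/-- The coefficients of the Dirichlet series `-L'/L (s)`, if `L (s)` is the Euler product with
`log L (s) = ∑ f p k / (k p ^ (k s))` over the prime numbers `p ∉ B` and all `k ≥ 1`: the coefficient at
`n = p ^ k` is `log p * f p k`. -/
noncomputable def coef (B : Finset ℕ) (f : ℕ → ℕ → ℂ) (n : ℕ) : ℂ :=
  if n.minFac ∈ B then 0
  else (ArithmeticFunction.vonMangoldt n : ℂ) * f n.minFac (n.factorization n.minFac)

/-- `L (s)` has a pole of order `m` at `s = 1` (a zero if `m < 0`), in terms of the logarithmic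
derivative: `-L'/L (s)` is given by an absolutely convergent Dirichlet series in some half plane
`σ < re s`, it has a meromorphic continuation `D` to the half plane `1 ≤ re s`, and `(s - 1) D s`
tends to `m` for `s → 1`. -/
def PoleOrder (B : Finset ℕ) (f : ℕ → ℕ → ℂ) (m : ℝ) : Prop :=
  ∃ (D : ℂ → ℂ) (σ : ℝ), (∀ s : ℂ, 1 ≤ s.re → MeromorphicAt D s) ∧
    (∀ s : ℂ, σ < s.re → LSeriesSummable (coef B f) s ∧ LSeries (coef B f) s = D s) ∧
    Tendsto (fun s : ℂ => (s - 1) * D s) (𝓝[≠] 1) (𝓝 (m : ℂ))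

/-- The Rankin-Selberg `L`-functions (Jacquet, Piatetski-Shapiro, Shalika; Shahidi) of a cuspidal `π`,
which is not essentially self-dual, with Satake parameters `S p`, and of an isobaric sum `τ` of cuspidal
representations of smaller degree, with parameters `R p`, both of weight `w`. -/
structure RankinSelberg (B : Finset ℕ) (w : ℤ) (S R : ℕ → Multiset ℂ) : Prop where
  /-- `π_p ⊗ |det| ^ (w / 2)` and `τ_p ⊗ |det| ^ (w / 2)` are unitary -/
  unitary : ∀ p : ℕ, p.Prime → p ∉ B →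
    (S p).map (fun a => (p : ℂ) ^ w / (starRingEnd ℂ) a) = S p ∧
    (R p).map (fun a => (p : ℂ) ^ w / (starRingEnd ℂ) a) = R p
  /-- `-L'/L (s, π × π~)` and `-L'/L (s, τ × τ~)` converge absolutely for `1 < re s` -/
  convergent : ∀ s : ℂ, 1 < s.re →
    LSeriesSummable (coef B (fun p k => ((‖pw (S p) k‖ ^ 2 / (p : ℝ) ^ (w * k) : ℝ) : ℂ))) s ∧
    LSeriesSummable (coef B (fun p k => ((‖pw (R p) k‖ ^ 2 / (p : ℝ) ^ (w * k) : ℝ) : ℂ))) s
  /-- `L(s, π × π~)` has a simple pole at `1` -/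
  self : PoleOrder B (fun p k => ((‖pw (S p) k‖ ^ 2 / (p : ℝ) ^ (w * k) : ℝ) : ℂ)) 1
  /-- `L(s, π × π~ ⊗ c)` has no zero at `1` -/
  twist : ∀ c, IsTwist B c → ∃ m : ℝ, 0 ≤ m ∧
    PoleOrder B (fun p k => c p ^ k * ((‖pw (S p) k‖ ^ 2 / (p : ℝ) ^ (w * k) : ℝ) : ℂ)) m
  /-- `L(s, π × τ~ ⊗ c)` has no pole or zero at `1` -/
  cross : ∀ c, IsTwist B c → PoleOrder B
    (fun p k => c p ^ k * (pw (S p) k * (starRingEnd ℂ) (pw (R p) k) / (p : ℂ) ^ (w * k))) 0
  /-- `L(s, π × τ ⊗ c)` has no pole or zero at `1` -/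
  prod : ∀ c, IsTwist B c →
    PoleOrder B (fun p k => c p ^ k * (pw (S p) k * pw (R p) k / (p : ℂ) ^ (w * k))) 0
  /-- `L(s, π × π ⊗ c)` has no pole or zero at `1`, since `π` is not essentially self-dual -/
  notDual : ∀ c, IsTwist B c →
    PoleOrder B (fun p k => c p ^ k * (pw (S p) k ^ 2 / (p : ℂ) ^ (w * k))) 0
  /-- `L(s, τ × τ~)` has a pole at `1`, and its order is not less than those of `L(s, τ × τ~ ⊗ c)` and
  `L(s, τ × τ ⊗ c)` -/
  piece : ∃ N : ℝ, 0 < N ∧
    PoleOrder B (fun p k => ((‖pw (R p) k‖ ^ 2 / (p : ℝ) ^ (w * k) : ℝ) : ℂ)) N ∧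
    ∀ c, IsTwist B c →
      (∃ m ≤ N, PoleOrder B
        (fun p k => c p ^ k * ((‖pw (R p) k‖ ^ 2 / (p : ℝ) ^ (w * k) : ℝ) : ℂ)) m) ∧
      ∃ m ≤ N, PoleOrder B (fun p k => c p ^ k * (pw (R p) k ^ 2 / (p : ℂ) ^ (w * k))) m

/-- Either `π` is tempered at one prime, or the Hecke polynomials have coefficients in a number
field and the bound of Jacquet and Shalika holds at one prime. The second alternative is a theorem for
all regular `π` (Clozel; Jacquet and Shalika). -/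
def Weights (B : Finset ℕ) (w : ℤ) (S : ℕ → Multiset ℂ) : Prop :=
  (∃ p : ℕ, p.Prime ∧ p ∉ B ∧ ∀ a ∈ S p, ‖a‖ ^ 2 = (p : ℝ) ^ w) ∨
  ((∃ E : IntermediateField ℚ ℂ, FiniteDimensional ℚ E ∧ ∀ p : ℕ, p.Prime → p ∉ B →
      ∃ f : Polynomial E, (f.map (algebraMap E ℂ)).roots = S p) ∧
    ∃ p : ℕ, p.Prime ∧ p ∉ B ∧ ∀ a ∈ S p, (p : ℝ) ^ (w - 1) < ‖a‖ ^ 2 ∧ ‖a‖ ^ 2 < (p : ℝ) ^ (w + 1))

/-- For `w = 2 v`: `L(s, π × τ × τ ⊗ c)` has no pole or zero at `1`, and `L(s, Λ²π × τ ⊗ c)` and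
`L(s, Sym²τ × τ ⊗ c)` have no zero at `1`. This is known for `π` on `GL_5` and `τ` on `GL_2`: the first
and the third function are Rankin-Selberg `L`-functions, as `τ × τ` is automorphic (Gelbart, Jacquet),
and for the second one it is a theorem of Shahidi (the Levi subgroup of type `A_4 × A_1` of `E_6`). -/
structure Triple (B : Finset ℕ) (v : ℤ) (S R : ℕ → Multiset ℂ) : Prop where
  triple : ∀ c, IsTwist B c →
    PoleOrder B (fun p k => c p ^ k * (pw (S p) k * pw (R p) k ^ 2 / (p : ℂ) ^ (3 * v * k))) 0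
  exterior : ∀ c, IsTwist B c → ∃ m : ℝ, 0 ≤ m ∧
    PoleOrder B (fun p k => c p ^ k * ((pw (S p) k ^ 2 - pw (S p) (2 * k)) / 2 * pw (R p) k /
      (p : ℂ) ^ (3 * v * k))) m
  symmetric : ∀ c, IsTwist B c → ∃ m : ℝ, 0 ≤ m ∧
    PoleOrder B (fun p k => c p ^ k * ((pw (R p) k ^ 2 + pw (R p) (2 * k)) / 2 * pw (R p) k /
      (p : ℂ) ^ (3 * v * k))) m

/-! ### Galois side -/

section Galois

variable {ℓ : ℕ} [hℓ : Fact ℓ.Prime] {n : ℕ}

/-- The representation `ρ` is unramified at `p`, and the eigenvalues (with multiplicities) of every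
geometric Frobenius element at `p` correspond under `ι` to the complex numbers in `S`. Here `Q` is a
prime ideal above `p` of the ring of algebraic integers. -/
structure AttachedAt (ρ : Gal(AlgebraicClosure ℚ/ℚ) →* GL (Fin n) (PadicAlgCl ℓ))
    (ι : PadicAlgCl ℓ →+* ℂ) (p : ℕ) (S : Multiset ℂ) : Prop where
  unramified : ∀ Q : Ideal (𝓞 (AlgebraicClosure ℚ)),
    Q.IsPrime ∧ (p : 𝓞 (AlgebraicClosure ℚ)) ∈ Q → ∀ g : Gal(AlgebraicClosure ℚ/ℚ),
      (∀ x : 𝓞 (AlgebraicClosure ℚ), g • x - x ∈ Q) → ρ g = 1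
  frobenius : ∀ Q : Ideal (𝓞 (AlgebraicClosure ℚ)),
    Q.IsPrime ∧ (p : 𝓞 (AlgebraicClosure ℚ)) ∈ Q → ∀ g : Gal(AlgebraicClosure ℚ/ℚ),
      (∀ x : 𝓞 (AlgebraicClosure ℚ), g • x - x ^ p ∈ Q) →
        ((ρ g⁻¹ : Matrix (Fin n) (Fin n) (PadicAlgCl ℓ)).charpoly.map ι).roots = S

/-- `U` is a subrepresentation of `ρ`. -/
def Stable (ρ : Gal(AlgebraicClosure ℚ/ℚ) →* GL (Fin n) (PadicAlgCl ℓ))
    (U : Submodule (PadicAlgCl ℓ) (Fin n → PadicAlgCl ℓ)) : Prop :=
  ∀ g, ∀ x ∈ U, (ρ g : Matrix (Fin n) (Fin n) (PadicAlgCl ℓ)) *ᵥ x ∈ U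

/-- The eigenvalues (with multiplicities) of `g` on the subrepresentation `U`. -/
noncomputable def eigen (ρ : Gal(AlgebraicClosure ℚ/ℚ) →* GL (Fin n) (PadicAlgCl ℓ))
    {U : Submodule (PadicAlgCl ℓ) (Fin n → PadicAlgCl ℓ)} (hU : Stable ρ U)
    (g : Gal(AlgebraicClosure ℚ/ℚ)) : Multiset (PadicAlgCl ℓ) :=
  ((Matrix.mulVecLin (ρ g : Matrix (Fin n) (Fin n) (PadicAlgCl ℓ))).restrict (hU g)).charpoly.roots

/-- The subquotients `V / U` and `V' / U'` of `ρ` are dual to each other up to the character `θ`: for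
each `g` the family `M` of the eigenvalues of `g` on `V / U` (the eigenvalues on `V` are those on `U`
and `M`) is mapped by `a ↦ θ g / a` onto the family of the eigenvalues on `V' / U'`. That is,
`V' / U'` and `(V / U)^∨ ⊗ θ` have the same characteristic polynomials. -/
def DualTwist (ρ : Gal(AlgebraicClosure ℚ/ℚ) →* GL (Fin n) (PadicAlgCl ℓ))
    {U V U' V' : Submodule (PadicAlgCl ℓ) (Fin n → PadicAlgCl ℓ)} (hU : Stable ρ U)
    (hV : Stable ρ V) (hU' : Stable ρ U') (hV' : Stable ρ V')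
    (θ : Gal(AlgebraicClosure ℚ/ℚ) →* (PadicAlgCl ℓ)ˣ) : Prop :=
  ∀ g, ∃ M, eigen ρ hV g = eigen ρ hU g + M ∧
    eigen ρ hV' g = eigen ρ hU' g + M.map (fun a => (θ g : PadicAlgCl ℓ) / a)

end Galois

theorem att {ℓ : ℕ} [Fact ℓ.Prime] {ι : PadicAlgCl ℓ →+* ℂ} {B : Finset ℕ} (hℓ : ℓ ∈ B)
    {T : Set ℕ} (hT : 3 ≤ T.encard) (hTB : ∀ p ∈ T, p.Prime ∧ p ∉ B) {S : ℕ → Multiset ℂ}
    (halg : ∀ p ∈ T, ∀ a ∈ S p, IsAlgebraic ℚ a) {n : ℕ}
    {ρ : Gal(AlgebraicClosure ℚ/ℚ) →* GL (Fin n) (PadicAlgCl ℓ)} (hρ : Continuous ρ)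
    (h : ∀ p : ℕ, p.Prime → p ∉ B → AttachedAt ρ ι p (S p)) :
    Pool.Agent.K3h66.LN.Att ρ ι B T S :=
  ⟨hρ, hℓ, hT, hTB, halg, fun p hp hpB => ⟨(h p hp hpB).unramified, (h p hp hpB).frobenius⟩⟩

theorem cross_one {B : Finset ℕ} {w : ℤ} {S R : ℕ → Multiset ℂ} (h : RankinSelberg B w S R) :
    PoleOrder B
      (fun p k => pw (S p) k * (starRingEnd ℂ) (pw (R p) k) / (p : ℂ) ^ (w * k)) 0 := by
  have h0 : IsTwist B (fun _ => 1) := (Pool.Agent.K3h4.LN.t_TW B).1
  have h1 := h.cross (fun _ => 1) h0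
  simp only [one_pow, one_mul] at h1
  exact h1

theorem rs_of {B : Finset ℕ} {w : ℤ} {S R : ℕ → Multiset ℂ} (h : RankinSelberg B w S R) :
    Pool.Agent.Zk65.AU.RS B w S R := by
  obtain ⟨N, hN0, hN, hm⟩ := h.piece
  have h1 : Pool.Agent.Zk26.IR.PoleOrder B
    (fun p k => pw (S p) k * (starRingEnd ℂ) (pw (R p) k) / (p : ℂ) ^ (w * k)) 0 := cross_one h
  exact ⟨fun s hs => (h.convergent s hs).1, fun s hs => (h.convergent s hs).2, h.self,
    h1, h.prod, N, hN0, hN, fun c hc => (hm c hc).2⟩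

theorem nd_of {B : Finset ℕ} {w : ℤ} {S R : ℕ → Multiset ℂ} (h : RankinSelberg B w S R) :
    Pool.Agent.Zk65.AU.ND B w S R := by
  obtain ⟨N, hN0, hN, hm⟩ := h.piece
  refine ⟨fun s hs => (h.convergent s hs).1, fun s hs => (h.convergent s hs).2, h.self,
    h.twist, h.notDual, h.cross, h.prod, fun c hc => ?_, fun c hc => ?_⟩
  · obtain ⟨m, -, h1⟩ := (hm c hc).1
    exact ⟨m, h1⟩
  · obtain ⟨m, -, h1⟩ := (hm c hc).2
    exact ⟨m, h1⟩

/-- **Main result.** -/
theorem result (ℓ : ℕ) [Fact ℓ.Prime] (ι : PadicAlgCl ℓ →+* ℂ) (B : Finset ℕ) (hℓ : ℓ ∈ B)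
    (A : Set ℕ) (hA : 3 ≤ A.encard) (hAB : ∀ p ∈ A, p.Prime ∧ p ∉ B) (w : ℤ)
    (S R : ℕ → Multiset ℂ) (halg : ∀ p ∈ A, ∀ a ∈ S p, IsAlgebraic ℚ a)
    (hRS : RankinSelberg B w S R)
    (n : ℕ) (ρ : Gal(AlgebraicClosure ℚ/ℚ) →* GL (Fin n) (PadicAlgCl ℓ)) (hρ : Continuous ρ)
    (h : ∀ p : ℕ, p.Prime → p ∉ B → AttachedAt ρ ι p (S p))
    (m : ℕ) (U : ℕ → Submodule (PadicAlgCl ℓ) (Fin n → PadicAlgCl ℓ)) (hU : ∀ i, Stable ρ (U i))
    (hmono : ∀ i, U i ≤ U (i + 1)) (h0 : U 0 = ⊥) (hm : U m = ⊤)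
    (J : Finset ℕ) (hJ : J ⊆ Finset.range m)
    (hR : ∀ p : ℕ, p.Prime → p ∉ B → ∀ Q : Ideal (𝓞 (AlgebraicClosure ℚ)),
      Q.IsPrime ∧ (p : 𝓞 (AlgebraicClosure ℚ)) ∈ Q → ∀ g : Gal(AlgebraicClosure ℚ/ℚ),
        (∀ x : 𝓞 (AlgebraicClosure ℚ), g • x - x ^ p ∈ Q) →
          ∑ i ∈ J, (eigen ρ (hU (i + 1)) g⁻¹).map ι =
            ∑ i ∈ J, (eigen ρ (hU i) g⁻¹).map ι + R p) :
    (Weights B w S →
      (∀ (σ : ℕ → ℕ) (θ : ℕ → Gal(AlgebraicClosure ℚ/ℚ) →* (PadicAlgCl ℓ)ˣ),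
        Set.BijOn σ (Finset.range m \ J : Finset ℕ) (Finset.range m \ J : Finset ℕ) →
        (∀ i ∈ Finset.range m \ J, Continuous (θ i)) →
        ∃ i ∈ Finset.range m \ J,
          ¬ DualTwist ρ (hU i) (hU (i + 1)) (hU (σ i)) (hU (σ i + 1)) (θ i)) ∧
      ∃ i ∈ Finset.range m \ J,
        finrank (PadicAlgCl ℓ) (U i) + 3 ≤ finrank (PadicAlgCl ℓ) (U (i + 1)) ∧
        ∀ θ : Gal(AlgebraicClosure ℚ/ℚ) →* (PadicAlgCl ℓ)ˣ, Continuous θ →
          ¬ DualTwist ρ (hU i) (hU (i + 1)) (hU i) (hU (i + 1)) θ) ∧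
    ∀ v : ℤ, w = 2 * v → (∀ p : ℕ, p.Prime → p ∉ B → Multiset.card (R p) + 3 = n) →
      ¬ Triple B v S R := by
  classical
  have hchar := Pool.Agent.K3h67.LN.t_CHAR Pool.Agent.K3h4.LN.t_FR
  have hatt := att hℓ hA hAB halg hρ h
  obtain ⟨Q, hc, hR'⟩ := Pool.Agent.Zk65.AU.exists_chain' (B := B) (R := R) hU hmono h0 hm (J := J)
    (fun p hp hpB => by
      obtain ⟨Q, hQ, hF⟩ := Pool.Agent.K3h66.LN.fr_spec hp
      exact hR p hp hpB Q hQ _ hF)
  have hP' : ∀ i ∈ J, ∀ p : ℕ, p.Prime → p ∉ B →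
      Pool.Agent.K3h66.LN.E ρ ι (U (i + 1)) (hU (i + 1)) p =
        Pool.Agent.K3h66.LN.E ρ ι (U i) (hU i) p + Q i p :=
    fun i hi p hp hpB => hc.step i (Finset.mem_range.1 (hJ hi)) p hp hpB
  refine ⟨fun hW => ?_, fun v hv hr ht => ?_⟩
  · have hno : ∀ (σ : ℕ → ℕ) (θ : ℕ → Gal(AlgebraicClosure ℚ/ℚ) →* (PadicAlgCl ℓ)ˣ),
        Set.BijOn σ (Finset.range m \ J : Finset ℕ) (Finset.range m \ J : Finset ℕ) →
        (∀ i ∈ Finset.range m \ J, Continuous (θ i)) →
        ∃ i ∈ Finset.range m \ J,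
          ¬ DualTwist ρ (hU i) (hU (i + 1)) (hU (σ i)) (hU (σ i + 1)) (θ i) := by
      intro σ θ hσ hθ
      by_contra hcon
      push Not at hcon
      exact Pool.Agent.Zk65.AU.no_dual hchar hatt hW (nd_of hRS)
        (fun p hp hpB => (hRS.unitary p hp hpB).1) (fun p hp hpB => (hRS.unitary p hp hpB).2)
        hU hmono h0 hm hJ hP' hR' σ hσ θ hθ hcon
    refine ⟨hno, ?_⟩
    by_contra hcon
    push Not at hcon
    have hex : ∀ i, ∃ θ : Gal(AlgebraicClosure ℚ/ℚ) →* (PadicAlgCl ℓ)ˣ,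
        i ∈ Finset.range m \ J → Continuous θ ∧
          DualTwist ρ (hU i) (hU (i + 1)) (hU i) (hU (i + 1)) θ := by
      intro i
      by_cases hi : i ∈ Finset.range m \ J
      · rcases Nat.lt_or_ge (finrank (PadicAlgCl ℓ) (U (i + 1)))
          (finrank (PadicAlgCl ℓ) (U i) + 3) with h1 | h1
        · obtain ⟨θ, h2, h3⟩ := Pool.Agent.K3h66.LN.esd_dual
            (Pool.Agent.K3h66.LN.esd_small ι hρ (hU i) (hU (i + 1)) (hmono i) (by omega))
          exact ⟨θ, fun _ => ⟨h2, h3⟩⟩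
        · obtain ⟨θ, h2, h3⟩ := hcon i hi h1
          exact ⟨θ, fun _ => ⟨h2, h3⟩⟩
      · exact ⟨1, fun h1 => absurd h1 hi⟩
    choose θ hθ using hex
    obtain ⟨i, hi, h1⟩ := hno id θ (Set.bijOn_id _) fun i hi => (hθ i hi).1
    exact h1 (hθ i hi).2
  · subst hv
    have hsplit := Pool.Agent.Zk65.AU.split_chain hatt hc hJ hR'
      (fun p hp hpB => (hRS.unitary p hp hpB).1) (fun p hp hpB => (hRS.unitary p hp hpB).2) hr
    obtain ⟨d, hd, hdv⟩ := Pool.Agent.Zk65.AU.comp_split (u := 3 * v) hchar hatt hc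
      Finset.sdiff_subset hsplit (by
        push_cast
        ring)
    exact Pool.Agent.Zk65.AU.case_tri (rs_of hRS) ⟨ht.triple, ht.exterior, ht.symmetric⟩ hsplit hd
      hdv

end Pool.Agent.Results.MP_fa5bba_nt.AutomorphicConstituents
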