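import Pool.Agent.Zk26.IR.Main
import Pool.Agent.K3h67.LN.Char
import Pool.Agent.K3h4.LN.Fr

/-!
# One-dimensional constituents of Galois representations attached to cuspidal automorphic
representations of `GL_n` over `ℚ`

Let `π` be an algebraic cuspidal automorphic representation of `GL_n` over `ℚ`, `n ≥ 2`, normalised so
that `π ⊗ |det| ^ (w / 2)` is unitary (`π` may be essentially self-dual or not, regular or not). Let `B`
be a finite set of primes containing `ℓ` and the ramified primes of `π`, and `S p`, `p ∉ B`, the Satake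
parameters. What we use about `π` is

* `Analytic B w S`: `L(s, π)` converges absolutely for `1 < re s`, and `L(s, π ⊗ c)`, `c` a Dirichlet
  character, is holomorphic and not zero at `s = 1` (Godement-Jacquet; Jacquet-Shalika);
  `L(s, Λ²π ⊗ c)` is meromorphic and not zero at `s = 1` (Shahidi);
* for three primes `p ∉ B` the Satake parameters are algebraic numbers;
* `Weights B w S`: either the Hecke polynomials have coefficients in a number field and the bound of
  Jacquet and Shalika holds at one prime `p ∉ B` (the first condition is a theorem of Clozel for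
  regular `π`, and it holds if `π` contributes to the coherent cohomology of a Shimura variety; the
  second one is a theorem for all `π`), or `w` is even and `π` is tempered at one prime `p ∉ B`.

**Theorem.** Let `ρ` be any continuous `ℓ`-adic representation attached to `π` (unramified at all
primes `p ∉ B`, the eigenvalues of the geometric Frobenius elements correspond to the Satake
parameters). In every filtration of `ρ` by subrepresentations the number `k` of graded pieces of
dimension one satisfies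

* `k ≤ n - 4` if `n ≥ 4`;
* `k ≤ 1` if `n = 3`, and if `k = 1` then `π~` is a twist of `π` by a character;
* `k = 0` if `n = 2`.

In particular, for `n = 4` all stable subspaces have even dimension: `ρ` is irreducible or all of its
constituents have dimension two. For `n = 5` there is at most one one-dimensional constituent.

There is no assumption of regularity, self-duality, purity, of Hodge-Tate type or semisimplicity, and the
prime `ℓ` is arbitrary.

The proof. By the `ℓ`-adic six exponentials theorem (and a Galois conjugation, if the Hecke polynomials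
have coefficients in a number field) the one-dimensional pieces `χ_1, …, χ_k` are
`p ^ (w / 2) c_i(p)` with Dirichlet characters `c_i`. Let `T` be the family of the `r = n - k` other
parameters, divided by `p ^ (w / 2)`; it is closed under `a ↦ 1 / conj a`, and its product is a
Dirichlet character `d`. If `r ≤ 3`, then `Λ² T` is `0`, `d` or `d · conj T`, and `T = π - c_1 - … - c_k`.
So the order of the pole of `L(s, Λ²π ⊗ c)` at `s = 1` is
`- #{i ≤ j : c c_i c_j = 1}` (`r ≤ 1`), or this number plus `[c d = 1]` (`r = 2`) or minus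
`#{i : c d = c_i}` (`r = 3`). Since it is not negative, we have a contradiction for `c = c_i⁻²`, unless
`r = 2` and `k = 1`. The order of the pole of the `L`-function of a Dirichlet character comes from
Chebotarev's theorem. For `n ≥ 5` it is not known that the Euler product of `L(s, Λ²π)` converges
absolutely for `1 < re s`; so we use the identity theorem for the meromorphic continuations.
-/

set_option autoImplicit false

namespace Pool.Agent.Results.MP_fa5bba_nt.OneDimensionalConstituents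

open Filter Topology NumberField Module Matrix

/-! ### Automorphic side -/

/-- `Q` is a prime ideal above the prime number `p` of the ring of all algebraic integers. -/
def PrimeOver (p : ℕ) (Q : Ideal (𝓞 (AlgebraicClosure ℚ))) : Prop :=
  Q.IsPrime ∧ (p : 𝓞 (AlgebraicClosure ℚ)) ∈ Q

/-- `g` is in the inertia group at `Q`. -/
def IsInertia (Q : Ideal (𝓞 (AlgebraicClosure ℚ))) (g : Gal(AlgebraicClosure ℚ/ℚ)) : Prop :=
  ∀ x : 𝓞 (AlgebraicClosure ℚ), g • x - x ∈ Q

/-- `g` is an (arithmetic) Frobenius element at the prime ideal `Q` above `p`. -/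
def IsFrobenius (p : ℕ) (Q : Ideal (𝓞 (AlgebraicClosure ℚ))) (g : Gal(AlgebraicClosure ℚ/ℚ)) :
    Prop := ∀ x : 𝓞 (AlgebraicClosure ℚ), g • x - x ^ p ∈ Q

/-- `c` is a Dirichlet character unramified outside `B`: there is a character `η` of the absolute
Galois group of `ℚ` with open kernel, unramified at all primes `p ∉ B`, and `c p = η (Frob_p)`. -/
def IsTwist (B : Finset ℕ) (c : ℕ → ℂ) : Prop :=
  ∃ η : Gal(AlgebraicClosure ℚ/ℚ) →* ℂˣ, IsOpen (η.ker : Set Gal(AlgebraicClosure ℚ/ℚ)) ∧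
    ∀ p : ℕ, p.Prime → p ∉ B → ∀ Q, PrimeOver p Q →
      (∀ g, IsInertia Q g → η g = 1) ∧ ∀ g, IsFrobenius p Q g → (η g : ℂ) = c p

/-- the sum of the `k`-th powers of the members of `S` -/
noncomputable def pw (S : Multiset ℂ) (k : ℕ) : ℂ := (S.map (fun a => a ^ k)).sum

/-- the second elementary symmetric function of the `k`-th powers of the members of `S` -/
noncomputable def el (S : Multiset ℂ) (k : ℕ) : ℂ := (pw S k ^ 2 - pw S (2 * k)) / 2

/-- The coefficients of the Dirichlet series `-L'/L (s)`, if `L (s)` is the Euler product with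
`log L (s) = ∑ f p k / (k p ^ (k s))` over the prime numbers `p ∉ B` and all `k ≥ 1`: the coefficient at
`n = p ^ k` is `log p * f p k`. -/
noncomputable def coef (B : Finset ℕ) (f : ℕ → ℕ → ℂ) (n : ℕ) : ℂ :=
  if n.minFac ∈ B then 0
  else (ArithmeticFunction.vonMangoldt n : ℂ) * f n.minFac (n.factorization n.minFac)

/-- `L (s)` has a pole of order `m` at `s = 1` (a zero if `m < 0`), in terms of the logarithmic
derivative: `-L'/L (s)` is given by an absolutely convergent Dirichlet series in some half plane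
`σ < re s`, it has a meromorphic continuation `D` to the half plane `1 ≤ re s`, and `(s - 1) D s`
tends to `m` for `s → 1`. -/
def PoleOrder (B : Finset ℕ) (f : ℕ → ℕ → ℂ) (m : ℝ) : Prop :=
  ∃ (D : ℂ → ℂ) (σ : ℝ), (∀ s : ℂ, 1 ≤ s.re → MeromorphicAt D s) ∧
    (∀ s : ℂ, σ < s.re → LSeriesSummable (coef B f) s ∧ LSeries (coef B f) s = D s) ∧
    Tendsto (fun s : ℂ => (s - 1) * D s) (𝓝[≠] 1) (𝓝 (m : ℂ))

/-- The analytic properties of the `L`-functions of a cuspidal automorphic representation `π` of `GL_n`,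
`n ≥ 2`, with Satake parameters `p ^ (w / 2) ·`(unitary parameters)` = S p`. -/
structure Analytic (B : Finset ℕ) (w : ℤ) (S : ℕ → Multiset ℂ) : Prop where
  /-- `π_p ⊗ |det| ^ (w / 2)` is unitary -/
  unitary : ∀ p : ℕ, p.Prime → p ∉ B →
    (S p).map (fun a => (p : ℂ) ^ w / (starRingEnd ℂ) a) = S p
  /-- `-L'/L (s, π)` converges absolutely for `1 < re s` -/
  convergent : ∀ s : ℂ, 1 < s.re →
    LSeriesSummable (coef B (fun p k => pw (S p) k / ((√(p : ℝ) : ℝ) : ℂ) ^ (w * k))) s
  /-- `L(s, π ⊗ c)` has no pole or zero at `1` -/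
  standard : ∀ c, IsTwist B c →
    PoleOrder B (fun p k => c p ^ k * (pw (S p) k / ((√(p : ℝ) : ℝ) : ℂ) ^ (w * k))) 0
  /-- `L(s, Λ²π ⊗ c)` has no zero at `1`: the order of the pole is not negative -/
  exterior : ∀ c, IsTwist B c → ∃ m : ℝ, 0 ≤ m ∧
    PoleOrder B (fun p k => c p ^ k * (el (S p) k / (p : ℂ) ^ (w * k))) m

/-- Either the Hecke polynomials have coefficients in a number field and the bound of Jacquet and
Shalika holds at one prime, or `w` is even and `π` is tempered at one prime. -/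
def Weights (B : Finset ℕ) (w : ℤ) (S : ℕ → Multiset ℂ) : Prop :=
  ((∃ E : IntermediateField ℚ ℂ, FiniteDimensional ℚ E ∧ ∀ p : ℕ, p.Prime → p ∉ B →
      ∃ f : Polynomial E, (f.map (algebraMap E ℂ)).roots = S p) ∧
    ∃ p : ℕ, p.Prime ∧ p ∉ B ∧
      ∀ a ∈ S p, (p : ℝ) ^ (w - 1) < ‖a‖ ^ 2 ∧ ‖a‖ ^ 2 < (p : ℝ) ^ (w + 1)) ∨
  (Even w ∧ ∃ p : ℕ, p.Prime ∧ p ∉ B ∧ ∀ a ∈ S p, ‖a‖ ^ 2 = (p : ℝ) ^ w)

/-- The family `S` is self-dual up to the twist by a character: `π~ ⊗ |det| ^ (-w) ⊗ c` has the same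
parameters. -/
def EssSelfDual (B : Finset ℕ) (w : ℤ) (S : ℕ → Multiset ℂ) : Prop :=
  ∃ c, IsTwist B c ∧ ∀ p : ℕ, p.Prime → p ∉ B →
    (S p).map (fun a => (p : ℂ) ^ w * c p / a) = S p

/-! ### Galois side -/

section Galois

variable {ℓ : ℕ} [hℓ : Fact ℓ.Prime] {n : ℕ}

/-- The matrix of `g`. -/
noncomputable def mat (ρ : Gal(AlgebraicClosure ℚ/ℚ) →* GL (Fin n) (PadicAlgCl ℓ))
    (g : Gal(AlgebraicClosure ℚ/ℚ)) : Matrix (Fin n) (Fin n) (PadicAlgCl ℓ) :=
  (ρ g : GL (Fin n) (PadicAlgCl ℓ))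

/-- The representation `ρ` is unramified at `p`, and the eigenvalues (with multiplicities) of every
geometric Frobenius element at `p` correspond under `ι` to the complex numbers in `S`. -/
structure AttachedAt (ρ : Gal(AlgebraicClosure ℚ/ℚ) →* GL (Fin n) (PadicAlgCl ℓ))
    (ι : PadicAlgCl ℓ →+* ℂ) (p : ℕ) (S : Multiset ℂ) : Prop where
  unramified : ∀ Q, PrimeOver p Q → ∀ g, IsInertia Q g → ρ g = 1
  frobenius : ∀ Q, PrimeOver p Q → ∀ g, IsFrobenius p Q g → ((mat ρ g⁻¹).charpoly.map ι).roots = S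

/-- `U` is a subrepresentation of `ρ`. -/
def Stable (ρ : Gal(AlgebraicClosure ℚ/ℚ) →* GL (Fin n) (PadicAlgCl ℓ))
    (U : Submodule (PadicAlgCl ℓ) (Fin n → PadicAlgCl ℓ)) : Prop := ∀ g, ∀ x ∈ U, mat ρ g *ᵥ x ∈ U

open Classical in
/-- the number of graded pieces of dimension one of the chain `U 0 ≤ U 1 ≤ … ≤ U m` -/
noncomputable def lines (m : ℕ) (U : ℕ → Submodule (PadicAlgCl ℓ) (Fin n → PadicAlgCl ℓ)) : ℕ :=
  ((Finset.range m).filter
    (fun i => finrank (PadicAlgCl ℓ) (U (i + 1)) = finrank (PadicAlgCl ℓ) (U i) + 1)).card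

end Galois

theorem an_of {B : Finset ℕ} {w v : ℤ} {S : ℕ → Multiset ℂ} (h : Analytic B w S)
    (hv : w = 2 * v) : Pool.Agent.Zk26.IR.An B v S := by
  subst hv
  have hsq : ∀ p k : ℕ, p.Prime →
      ((√(p : ℝ) : ℝ) : ℂ) ^ (2 * v * k) = (p : ℂ) ^ (v * k) := by
    intro p k hp
    have h1 : ((√(p : ℝ) : ℝ) : ℂ) ^ (2 : ℤ) = (p : ℂ) := by
      have h2 : √(p : ℝ) ^ 2 = (p : ℝ) := Real.sq_sqrt (Nat.cast_nonneg p)
      have h3 : ((√(p : ℝ) ^ 2 : ℝ) : ℂ) = (p : ℂ) := by
        rw [h2, Complex.ofReal_natCast]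
      rw [← h3]
      push_cast
      norm_cast
    rw [mul_assoc, _root_.zpow_mul, h1]
  have hs : ∀ s : ℂ, 1 < s.re → LSeriesSummable (Pool.Agent.Zk26.IR.coef B
      (fun p k => pw (S p) k / ((√(p : ℝ) : ℝ) : ℂ) ^ (2 * v * k))) s := h.convergent
  refine ⟨h.unitary, fun c hc => ?_, fun c hc => h.exterior c hc⟩
  have hc' : Pool.Agent.K3h66.LN.IsTwist B c := hc
  have hpo : Pool.Agent.Zk26.IR.PoleOrder B
      (fun p k => c p ^ k * (pw (S p) k / ((√(p : ℝ) : ℝ) : ℂ) ^ (2 * v * k))) 0 :=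
    h.standard c hc
  have hsum : ∀ s : ℂ, 1 < s.re → LSeriesSummable (Pool.Agent.Zk26.IR.coef B
      (fun p k => c p ^ k * (pw (S p) k / ((√(p : ℝ) : ℝ) : ℂ) ^ (2 * v * k)))) s :=
    fun s h1 => Pool.Agent.Zk26.IR.sum_mul (B := B)
      (f := fun p k => pw (S p) k / ((√(p : ℝ) : ℝ) : ℂ) ^ (2 * v * k)) hs
      (c := fun p k => c p ^ k) (fun p k hp hpB => by
        rw [norm_pow, Pool.Agent.Zk26.IR.norm_tw hc' hp hpB, one_pow]) s h1
  have h1 := Pool.Agent.Zk26.IR.of_pole hpo hsum
  rw [Complex.ofReal_zero] at h1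
  refine h1.congr fun p k hp _ _ => ?_
  rw [hsq p k hp]
  rfl

theorem att {ℓ : ℕ} [Fact ℓ.Prime] {ι : PadicAlgCl ℓ →+* ℂ} {B : Finset ℕ} (hℓ : ℓ ∈ B)
    {T : Set ℕ} (hT : 3 ≤ T.encard) (hTB : ∀ p ∈ T, p.Prime ∧ p ∉ B) {S : ℕ → Multiset ℂ}
    (halg : ∀ p ∈ T, ∀ a ∈ S p, IsAlgebraic ℚ a) {n : ℕ}
    {ρ : Gal(AlgebraicClosure ℚ/ℚ) →* GL (Fin n) (PadicAlgCl ℓ)} (hρ : Continuous ρ)
    (h : ∀ p : ℕ, p.Prime → p ∉ B → AttachedAt ρ ι p (S p)) :
    Pool.Agent.K3h66.LN.Att ρ ι B T S :=
  ⟨hρ, hℓ, hT, hTB, halg, fun p hp hpB => ⟨(h p hp hpB).unramified, (h p hp hpB).frobenius⟩⟩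

theorem lines_one {ℓ : ℕ} [Fact ℓ.Prime] {n : ℕ}
    {V W : Submodule (PadicAlgCl ℓ) (Fin n → PadicAlgCl ℓ)}
    (h : finrank (PadicAlgCl ℓ) W = finrank (PadicAlgCl ℓ) V + 1) :
    lines 1 (fun i => if i = 0 then V else W) = 1 := by
  unfold lines
  rw [Finset.range_one, Finset.filter_singleton, if_pos, Finset.card_singleton]
  exact h

/-- **Main result.** -/
theorem result (ℓ : ℕ) [Fact ℓ.Prime] (ι : PadicAlgCl ℓ →+* ℂ) (B : Finset ℕ) (hℓ : ℓ ∈ B)
    (T : Set ℕ) (hT : 3 ≤ T.encard) (hTB : ∀ p ∈ T, p.Prime ∧ p ∉ B) (w : ℤ) (S : ℕ → Multiset ℂ)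
    (halg : ∀ p ∈ T, ∀ a ∈ S p, IsAlgebraic ℚ a) (hA : Analytic B w S) (hW : Weights B w S)
    (n : ℕ) (ρ : Gal(AlgebraicClosure ℚ/ℚ) →* GL (Fin n) (PadicAlgCl ℓ)) (hρ : Continuous ρ)
    (h : ∀ p : ℕ, p.Prime → p ∉ B → AttachedAt ρ ι p (S p)) :
    (∀ (m : ℕ) (U : ℕ → Submodule (PadicAlgCl ℓ) (Fin n → PadicAlgCl ℓ)),
      (∀ i, Stable ρ (U i)) → (∀ i, U i ≤ U (i + 1)) →
        lines m U = 0 ∨ lines m U + 4 ≤ n ∨ (lines m U = 1 ∧ n = 3 ∧ EssSelfDual B w S)) ∧
    (n = 4 → ∀ U, Stable ρ U → Even (finrank (PadicAlgCl ℓ) U)) := by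
  have hchar := Pool.Agent.K3h67.LN.t_CHAR Pool.Agent.K3h4.LN.t_FR
  have hatt := att hℓ hT hTB halg hρ h
  have hW' : Pool.Agent.Zk26.IR.WeightsE B w S := hW.symm
  have hmain : ∀ (m : ℕ) (U : ℕ → Submodule (PadicAlgCl ℓ) (Fin n → PadicAlgCl ℓ)),
      (∀ i, Stable ρ (U i)) → (∀ i, U i ≤ U (i + 1)) →
        lines m U = 0 ∨ lines m U + 4 ≤ n ∨ (lines m U = 1 ∧ n = 3 ∧ EssSelfDual B w S) := by
    intro m U hU hmono
    have hl : lines m U = (Pool.Agent.Zk26.IR.steps m U).card := rfl
    rw [hl]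
    rcases Finset.eq_empty_or_nonempty (Pool.Agent.Zk26.IR.steps m U) with h0 | hne
    · left
      rw [h0, Finset.card_empty]
    · obtain ⟨v, c, Q, r, d, hv, hr, hdec⟩ :=
        Pool.Agent.Zk26.IR.decompose hchar hatt hW' hA.unitary hU hmono hne
      have hAn := an_of hA hv
      rcases Pool.Agent.Zk26.IR.core hAn hdec hne with h1 | ⟨h1, h2⟩
      · right
        left
        omega
      · right
        right
        refine ⟨h2, by omega, ?_⟩
        obtain ⟨i, hi⟩ := Finset.card_eq_one.1 h2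
        have hmem : i ∈ Pool.Agent.Zk26.IR.steps m U := by
          rw [hi]
          exact Finset.mem_singleton_self i
        have htw := hdec.tw i hmem
        refine ⟨fun p => c i p * c i p, Pool.Agent.Zk26.IR.tw_mul htw htw, fun p hp hpB => ?_⟩
        have h3 := Pool.Agent.Zk26.IR.core_two hAn hdec h1 hmem hp hpB
        have h4 := hdec.dec p hp hpB
        have h5 := hdec.card p hp hpB
        have h6 := hdec.prod p hp hpB
        rw [h1] at h5 h6
        obtain ⟨a, b, hab⟩ := Multiset.card_eq_two.1 h5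
        rw [hab] at h6
        simp only [Multiset.insert_eq_cons, Multiset.prod_cons, Multiset.prod_singleton] at h6
        rw [hi, hab] at h4
        have h7 : ((({i} : Finset ℕ).val.map (fun i => (p : ℂ) ^ v * c i p)) : Multiset ℂ) =
            {(p : ℂ) ^ v * c i p} := rfl
        rw [h7] at h4
        have hp0 : (p : ℂ) ≠ 0 := by exact_mod_cast hp.ne_zero
        have hx0 : (p : ℂ) ^ v * c i p ≠ 0 :=
          mul_ne_zero (zpow_ne_zero _ hp0) (Pool.Agent.Zk26.IR.tw_ne htw hp hpB)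
        have h8 : (p : ℂ) ^ w * (c i p * c i p) =
            ((p : ℂ) ^ v * c i p) * ((p : ℂ) ^ v * c i p) := by
          rw [hv, two_mul, zpow_add₀ hp0]
          ring
        have h9 : a * b = ((p : ℂ) ^ v * c i p) * ((p : ℂ) ^ v * c i p) := by
          rw [h6, h3]
          push_cast
          rw [mul_comm v 2, two_mul, zpow_add₀ hp0]
          ring
        have hab0 : a * b ≠ 0 := by
          rw [h9]
          exact mul_ne_zero hx0 hx0
        have ha0 : a ≠ 0 := left_ne_zero_of_mul hab0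
        have hb0 : b ≠ 0 := right_ne_zero_of_mul hab0
        rw [h8, h4]
        simp only [Multiset.insert_eq_cons, Multiset.map_add, Multiset.map_cons,
          Multiset.map_singleton]
        rw [mul_div_cancel_right₀ _ hx0, ← h9, mul_div_cancel_left₀ _ ha0,
          mul_div_cancel_right₀ _ hb0]
        congr 1
        exact Multiset.pair_comm _ _
  refine ⟨hmain, fun hn U hU => ?_⟩
  have hdim : finrank (PadicAlgCl ℓ) U ≤ 4 := by
    have h1 := Submodule.finrank_le U
    rw [finrank_fin_fun] at h1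
    omega
  have hbot : Stable ρ ⊥ := Pool.Agent.K3h66.LN.stable_bot (ρ := ρ)
  have htop : Stable ρ ⊤ := Pool.Agent.K3h66.LN.stable_top (ρ := ρ)
  have hpair : ∀ V W : Submodule (PadicAlgCl ℓ) (Fin n → PadicAlgCl ℓ), Stable ρ V → Stable ρ W →
      V ≤ W → finrank (PadicAlgCl ℓ) W ≠ finrank (PadicAlgCl ℓ) V + 1 := by
    intro V W hV hW2 hVW hfr
    have h2 := hmain 1 (fun i => if i = 0 then V else W) (fun i => by
      split_ifs
      · exact hV
      · exact hW2) (fun i => by
      rw [if_neg (Nat.succ_ne_zero i)]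
      split_ifs
      · exact hVW
      · exact le_rfl)
    rw [lines_one hfr] at h2
    omega
  have h1 : finrank (PadicAlgCl ℓ) U ≠ 1 := by
    intro h1
    refine hpair ⊥ U hbot hU bot_le ?_
    rw [h1, finrank_bot]
  have h3 : finrank (PadicAlgCl ℓ) U ≠ 3 := by
    intro h1
    refine hpair U ⊤ hU htop le_top ?_
    rw [h1, finrank_top, finrank_fin_fun, hn]
  have h4 : finrank (PadicAlgCl ℓ) U = 0 ∨ finrank (PadicAlgCl ℓ) U = 2 ∨
      finrank (PadicAlgCl ℓ) U = 4 := by omega
  rcases h4 with h4 | h4 | h4 <;> rw [h4] <;> decide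

end Pool.Agent.Results.MP_fa5bba_nt.OneDimensionalConstituents
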