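import Pool.Agent.Zk39.OP.Bal

/-!
# Irreducibility for every `ℓ` from one Hecke polynomial

Let `π` be an algebraic cuspidal automorphic representation of `GL_n` over `ℚ` and
`ρ : Gal(ℚbar/ℚ) → GL_n(ℚbar_ℓ)` a continuous representation attached to `π`. Let `p ≠ ℓ` be one prime
at which `π` is unramified, and suppose that the Hecke polynomial at `p` is irreducible over some
subfield `E` of `ℂ` which contains its coefficients (for regular `π` the coefficients of all Hecke
polynomials are contained in a number field, by a theorem of Clozel), and that the quotients of its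
roots are not all roots of unity. We show, for every `ℓ ≠ p`:

* all irreducible subquotients of `ρ` have dimension at least two;
* if `n = r ^ k` is a power of a prime number `r`, then the dimensions of all irreducible
  subquotients are divisible by `r`, so there are at most `n / r` of them;
* if the Newton polygon of the Hecke polynomial at some place above `p` has two slopes, with the
  multiplicities `i` and `j`, then the dimensions of all subrepresentations are divisible by
  `n / gcd(i, j)`, so there are at most `gcd(i, j)` irreducible subquotients;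
* `ρ` is irreducible if `n` is a prime number; if the Galois group of the Hecke polynomial over `E` is
  doubly transitive; or if no proper nonempty set of the slopes at some place above `p` has the same
  average as all slopes (for example in the case of two slopes with coprime multiplicities).

Nothing is assumed on self-duality, regularity, purity, the places at infinity, `ℓ`, or ramified
places; the Satake parameters have to be algebraic for three primes (this is known for regular `π`).
So the irreducibility for all `ℓ ≠ p` of the representations attached to a given `π`, for example if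
`π` is not essentially self-dual and `n = 5` or `n = 7`, can be verified by the computation of one Hecke
polynomial (and of a second one for `ℓ = p`). If `π` is essentially self-dual and `E` is real, the
roots come in pairs, and for `n > 2` the criteria of the last item do not apply.

Proof. The determinant of a stable subspace is up to finite order a rational power of the cyclotomic
character (`ℓ`-adic six exponentials theorem, library `Pool.Agent.Y115`). So a stable subspace `U` gives
a set `A` of `dim U` roots of the Hecke polynomial `f` at `p` such that a power of the product of `A`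
is a power of `p`. Let `L` be the space of the rational vectors `c` with `∏ x ^ (M c(x)) = p ^ k` for some
`M > 0` and `k`; it is stable under the Galois group of `f` over `E`, and it contains the characteristic
function of `A`. It is not the whole space, as otherwise all the quotients of the roots would be
roots of unity. So there is a nonzero integral vector `c` which is orthogonal to all conjugates of
`A`, and we may assume that it is not divisible by `r`. If `n = r ^ k`, a Sylow subgroup at `r` is transitive
on the roots, and it has a nonzero fixed vector in the space of the vectors modulo `r` which are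
orthogonal to the conjugates of `A`; this vector is constant, so `r` divides the order of `A`. For the
slopes we take the product over all conjugates: up to a root of unity, the `n`-th power of the product
of `A` is the power with exponent `dim U` of the product of all roots.
-/

set_option autoImplicit false

namespace Pool.Agent.Results.MP_fa5bba_nt.OneHeckePolynomial

open NumberField Polynomial Matrix

/-- `Q` is a prime ideal above the prime number `p` of the ring of all algebraic integers. -/
def PrimeOver (p : ℕ) (Q : Ideal (𝓞 (AlgebraicClosure ℚ))) : Prop :=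
  Q.IsPrime ∧ (p : 𝓞 (AlgebraicClosure ℚ)) ∈ Q

/-- `g` is in the inertia group at `Q`. -/
def IsInertia (Q : Ideal (𝓞 (AlgebraicClosure ℚ))) (g : Gal(AlgebraicClosure ℚ/ℚ)) : Prop :=
  ∀ x : 𝓞 (AlgebraicClosure ℚ), g • x - x ∈ Q

/-- `g` is an (arithmetic) Frobenius element at the prime ideal `Q` above `p`. -/
def IsFrobenius (p : ℕ) (Q : Ideal (𝓞 (AlgebraicClosure ℚ))) (g : Gal(AlgebraicClosure ℚ/ℚ)) :
    Prop := ∀ x : 𝓞 (AlgebraicClosure ℚ), g • x - x ^ p ∈ Q

variable {ℓ : ℕ} [Fact ℓ.Prime] {n : ℕ}

/-- The matrix of `g`. -/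
noncomputable def mat (ρ : Gal(AlgebraicClosure ℚ/ℚ) →* GL (Fin n) (PadicAlgCl ℓ))
    (g : Gal(AlgebraicClosure ℚ/ℚ)) : Matrix (Fin n) (Fin n) (PadicAlgCl ℓ) :=
  (ρ g : GL (Fin n) (PadicAlgCl ℓ))

/-- The representation `ρ` is unramified at `p`, and the eigenvalues (with multiplicities) of every
geometric Frobenius element at `p` correspond under `ι` to the complex numbers in `S`. -/
structure AttachedAt (ρ : Gal(AlgebraicClosure ℚ/ℚ) →* GL (Fin n) (PadicAlgCl ℓ))
    (ι : PadicAlgCl ℓ →+* ℂ) (p : ℕ) (S : Multiset ℂ) : Prop where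
  unramified : ∀ Q, PrimeOver p Q → ∀ g, IsInertia Q g → ρ g = 1
  frobenius : ∀ Q, PrimeOver p Q → ∀ g, IsFrobenius p Q g → ((mat ρ g⁻¹).charpoly.map ι).roots = S

/-- `U` is a subrepresentation of `ρ`. -/
def Stable (ρ : Gal(AlgebraicClosure ℚ/ℚ) →* GL (Fin n) (PadicAlgCl ℓ))
    (U : Submodule (PadicAlgCl ℓ) (Fin n → PadicAlgCl ℓ)) : Prop := ∀ g, ∀ x ∈ U, mat ρ g *ᵥ x ∈ U

/-- `ρ` is irreducible. -/
def Irreducible (ρ : Gal(AlgebraicClosure ℚ/ℚ) →* GL (Fin n) (PadicAlgCl ℓ)) : Prop :=
  0 < n ∧ ∀ U, Stable ρ U → U = ⊥ ∨ U = ⊤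

/-- `S` is the set of roots of an irreducible polynomial with coefficients in `E`, and some
quotient of two roots is not a root of unity. -/
def IrreducibleOver (E : Subfield ℂ) (S : Multiset ℂ) : Prop :=
  (∃ f : E[X], _root_.Irreducible f ∧ (f.map (algebraMap E ℂ)).roots = S) ∧
    ∃ a ∈ S, ∃ b ∈ S, ∀ N : ℕ, 0 < N → a ^ N ≠ b ^ N

/-- The automorphisms of `ℂ` over `E` are doubly transitive on the members of `S`. -/
def DoublyTransitive (E : Subfield ℂ) (S : Multiset ℂ) : Prop :=
  ∀ a ∈ S, ∀ b ∈ S, ∀ a' ∈ S, ∀ b' ∈ S, a ≠ b → a' ≠ b' → ∃ σ : ℂ ≃ₐ[E] ℂ, σ a = a' ∧ σ b = b'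

/-- No proper nonempty part of `S` has the same average of `log v` as `S`, for the absolute value `v`
of `ℂ` (in the application an extension of the `p`-adic absolute value). -/
def SlopeFree (v : AbsoluteValue ℂ ℝ) (S : Multiset ℂ) : Prop :=
  ∀ B ≤ S, B ≠ 0 → B ≠ S → v B.prod ^ Multiset.card S ≠ v S.prod ^ Multiset.card B

/-- The members of `S` have two absolute values, one of them `i` times and the other one `j` times. -/
def TwoSlopes (v : AbsoluteValue ℂ ℝ) (S : Multiset ℂ) (i j : ℕ) : Prop :=
  ∃ s t : ℝ, s ≠ t ∧ S.map v = Multiset.replicate i s + Multiset.replicate j t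

/-- **Irreducibility for every `ℓ` from one Hecke polynomial.**

Let complex numbers `S q` be given for the primes `q` (in the application the eigenvalues of the
Satake parameters of an algebraic cuspidal automorphic representation `π` of `GL_n`), algebraic for the
`q` in a set `T` of at least three primes. Let `ℓ ∉ T`, and let `ρ` be continuous, attached to `S` at
the primes in `T` and at one more prime `p ≠ ℓ` (which can be in `T`). -/
theorem result (ℓ : ℕ) [Fact ℓ.Prime] {n : ℕ} (S : ℕ → Multiset ℂ) (T : Set ℕ)
    (hT3 : 3 ≤ T.encard) (hT : ∀ q ∈ T, q.Prime ∧ q ≠ ℓ)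
    (halg : ∀ q ∈ T, ∀ a ∈ S q, IsAlgebraic ℚ a) (ι : PadicAlgCl ℓ →+* ℂ)
    (ρ : Gal(AlgebraicClosure ℚ/ℚ) →* GL (Fin n) (PadicAlgCl ℓ)) (hρ : Continuous ρ)
    (hS : ∀ q ∈ T, AttachedAt ρ ι q (S q)) (p : ℕ) (hp : p.Prime) (hpℓ : p ≠ ℓ)
    (hSp : AttachedAt ρ ι p (S p)) (E : Subfield ℂ) (hE : IrreducibleOver E (S p)) :
    (∀ U U', Stable ρ U → Stable ρ U' → U ≤ U' →
      Module.finrank (PadicAlgCl ℓ) U' ≠ Module.finrank (PadicAlgCl ℓ) U + 1) ∧
    (∀ r k : ℕ, r.Prime → n = r ^ k → ∀ U, Stable ρ U →
      r ∣ Module.finrank (PadicAlgCl ℓ) U) ∧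
    (∀ v i j, TwoSlopes v (S p) i j → ∀ U, Stable ρ U →
      n ∣ i.gcd j * Module.finrank (PadicAlgCl ℓ) U) ∧
    (n.Prime ∨ DoublyTransitive E (S p) ∨ (∃ v, SlopeFree v (S p)) → Irreducible ρ) := by
  obtain ⟨hcard, A, hA1, hA2⟩ := Pool.Agent.Zk39.OP.family ρ hρ ι T hT3 hT S
    (fun q hq Q hQ hqQ g hg => (hS q hq).frobenius Q ⟨hQ, hqQ⟩ g hg) halg hp hpℓ
    (fun Q hQ hqQ g hg => hSp.frobenius Q ⟨hQ, hqQ⟩ g hg)
  have hfam : Pool.Agent.Zk39.OP.Fam (Stable ρ) p (S p) A := by
    refine ⟨by rw [Module.finrank_fin_fun, hcard], fun U hU => ?_, fun U U' hU hU' hle => ?_⟩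
    · exact hA1 U (fun g x hx => hU g x hx)
    · exact hA2 U U' (fun g x hx => hU g x hx) (fun g x hx => hU' g x hx) hle
  have htop : Stable ρ ⊤ := fun g x _ => Submodule.mem_top
  have hfr : Module.finrank (PadicAlgCl ℓ) (Fin n → PadicAlgCl ℓ) = n := Module.finrank_fin_fun _
  obtain ⟨⟨f, hf, hroots⟩, hne⟩ := hE
  have hdvd : ∀ r k : ℕ, r.Prime → n = r ^ k → ∀ U, Stable ρ U →
      r ∣ Module.finrank (PadicAlgCl ℓ) U := fun r k hr hn U hU =>
    Pool.Agent.Zk39.OP.dvd_finrank hfam hp.ne_zero htop hf hroots hne hr
      (by rw [hfr, hn]) hU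
  have hn0 : 0 < n := by
    obtain ⟨a, ha, -⟩ := hne
    rw [← hcard]
    exact Multiset.card_pos_iff_exists_mem.2 ⟨a, ha⟩
  refine ⟨fun U U' hU hU' hle =>
    Pool.Agent.Zk39.OP.finrank_ne_succ hfam hp.ne_zero htop hf hroots hne hU hU' hle, hdvd,
    fun v i j hv U hU => ?_, ?_⟩
  · have h1 := Pool.Agent.Zk39.OP.dvd_of_slopes hfam hp.ne_zero htop hf hroots hv hU
    rw [hfr] at h1
    exact h1
  · rintro (hn | h2 | ⟨v, hv⟩)
    · refine ⟨hn0, fun U hU => ?_⟩
      have h1 := hdvd n 1 hn (pow_one n).symm U hU
      rcases Nat.eq_zero_or_pos (Module.finrank (PadicAlgCl ℓ) U) with h3 | h3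
      · exact Or.inl (Submodule.finrank_eq_zero.1 h3)
      · right
        have h4 : n ≤ Module.finrank (PadicAlgCl ℓ) U := Nat.le_of_dvd h3 h1
        refine Submodule.eq_top_of_finrank_eq (le_antisymm (Submodule.finrank_le U) ?_)
        rw [hfr]
        exact h4
    · exact ⟨hn0, fun U hU =>
        Pool.Agent.Zk39.OP.bot_or_top hfam hp.ne_zero htop hf hroots hne h2 hU⟩
    · exact ⟨hn0, fun U hU =>
        Pool.Agent.Zk39.OP.bot_or_top_of_slopes hfam hf hroots hv hU⟩

end Pool.Agent.Results.MP_fa5bba_nt.OneHeckePolynomial
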