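import Pool.Agent.Zk53.SP.Fin

/-!
# Irreducibility for every `ℓ` from several places of Steinberg type up to semisimplification

Let `π` be an algebraic cuspidal automorphic representation of `GL_n` over `ℚ` and
`ρ : Gal(ℚbar/ℚ) → GL_n(ℚbar_ℓ)` a continuous representation attached to `π`. Suppose that at the
primes `p ≠ ℓ` of a finite nonempty set `J` the component of `π` is essentially square integrable,
`Sp_m(σ₀)` with `σ₀` supercuspidal and `m = m(p)`, and that `π` and `ρ` are compatible at `p` up to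
semisimplification only (for regular algebraic `π` this is a theorem of Varma). Let `g` be the
greatest common divisor of the `m(p)`, `p ∈ J`. We show:

* the dimensions of the subrepresentations of `ρ` are multiples of `n / g`;
* if `g` is even, then all chains of subrepresentations have at most `g / 2` steps; so `ρ` has at
  most `g / 2` irreducible constituents;
* `ρ` is irreducible if `g ≤ 2`; for example if `n = 12` and `m(p) = 4`, `m(q) = 6`;
* if `g` is even and `π` is tempered at one good prime (it is enough that the Satake parameters have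
  the same absolute value), then the dimensions of the subrepresentations are multiples of `2 n / g`.

Nothing is assumed on the monodromy operators, at the infinite place, at `ℓ`, and there is no
self-duality. The case of one place with `m` even is the first part of the theorem of
`SteinbergTypePlace` (at most `(m + 1) / 2` constituents); for several places the bound depends only
on the greatest common divisor.

Proof. The determinant of a subquotient `σ` of `ρ` is up to finite order a rational power of the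
cyclotomic character (`ℓ`-adic six exponentials theorem, library `Pool.Agent.Y115`). Let
`w(σ)` be this power minus the average for `ρ` (so `w` is additive and `w(ρ) = 0`),
`E = g dim σ / n` and `B = 2 g w(σ) / n`. At a prime `p ∈ J` the factors `σ₀(i)`, `i ∈ A`, belong to `σ`,
and `m(p) E / g = |A|`, `m(p) (B - E) / g = 2 ∑ i - |A| m(p)` is an even integer. So `E` is an integer and
`B - E` an even integer. The bound of Jacquet and Shalika gives `|B / E - B' / E'| < 2` for two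
subquotients. If one constituent has `E = 1`, its `B` is odd, say `B ≥ 1`; then `E' + B' > 0` for all
the constituents, so `E' + B' ≥ 2`, and the sum of the `E' + B'` is `g`.
-/

set_option autoImplicit false

namespace Pool.Agent.Results.MP_fa5bba_nt.SeveralSteinbergPlaces

open NumberField Polynomial Matrix

/-- `Q` is a prime ideal above the prime number `p` of the ring of all algebraic integers. -/
def PrimeOver (p : ℕ) (Q : Ideal (𝓞 (AlgebraicClosure ℚ))) : Prop :=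
  Q.IsPrime ∧ (p : 𝓞 (AlgebraicClosure ℚ)) ∈ Q

/-- `g` is in the inertia group at `Q`. -/
def IsInertia (Q : Ideal (𝓞 (AlgebraicClosure ℚ))) (g : Gal(AlgebraicClosure ℚ/ℚ)) : Prop :=
  ∀ x : 𝓞 (AlgebraicClosure ℚ), g • x - x ∈ Q

/-- `g` is an (arithmetic) Frobenius element at the prime ideal `Q` above `p`. -/
def IsFrobenius (p : ℕ) (Q : Ideal (𝓞 (AlgebraicClosure ℚ))) (g : Gal(AlgebraicClosure ℚ/ℚ)) :
    Prop := ∀ x : 𝓞 (AlgebraicClosure ℚ), g • x - x ^ p ∈ Q

variable {ℓ : ℕ} [Fact ℓ.Prime] {n : ℕ}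

/-- The matrix of `g`. -/
noncomputable def mat (ρ : Gal(AlgebraicClosure ℚ/ℚ) →* GL (Fin n) (PadicAlgCl ℓ))
    (g : Gal(AlgebraicClosure ℚ/ℚ)) : Matrix (Fin n) (Fin n) (PadicAlgCl ℓ) :=
  (ρ g : GL (Fin n) (PadicAlgCl ℓ))

/-- The representation `ρ` is unramified at `p`, and the eigenvalues (with multiplicities) of every
geometric Frobenius element at `p` correspond under `ι` to the complex numbers in `S`. -/
structure AttachedAt (ρ : Gal(AlgebraicClosure ℚ/ℚ) →* GL (Fin n) (PadicAlgCl ℓ))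
    (ι : PadicAlgCl ℓ →+* ℂ) (p : ℕ) (S : Multiset ℂ) : Prop where
  unramified : ∀ Q, PrimeOver p Q → ∀ g, IsInertia Q g → ρ g = 1
  frobenius : ∀ Q, PrimeOver p Q → ∀ g, IsFrobenius p Q g → ((mat ρ g⁻¹).charpoly.map ι).roots = S

/-- `U` is a subrepresentation of `ρ`. -/
def Stable (ρ : Gal(AlgebraicClosure ℚ/ℚ) →* GL (Fin n) (PadicAlgCl ℓ))
    (U : Submodule (PadicAlgCl ℓ) (Fin n → PadicAlgCl ℓ)) : Prop := ∀ g, ∀ x ∈ U, mat ρ g *ᵥ x ∈ U

/-- `ρ` is irreducible. -/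
def Irreducible (ρ : Gal(AlgebraicClosure ℚ/ℚ) →* GL (Fin n) (PadicAlgCl ℓ)) : Prop :=
  0 < n ∧ ∀ U, Stable ρ U → U = ⊥ ∨ U = ⊤

/-- The subquotient `B / A` of `ρ` restricted to the decomposition group at `Q` is the twist of
`σ₀` by the power `χ ^ k` of the cyclotomic character: a linear map `θ` induces an isomorphism of
`B / A` with the space of `σ₀`, such that the elements `g` of the inertia group act by `σ₀ g`, and
the Frobenius element `σ` acts by `p ^ k σ₀ σ`. -/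
def IsTwist (ρ : Gal(AlgebraicClosure ℚ/ℚ) →* GL (Fin n) (PadicAlgCl ℓ)) (p : ℕ)
    (Q : Ideal (𝓞 (AlgebraicClosure ℚ))) (σ : Gal(AlgebraicClosure ℚ/ℚ)) {s : ℕ}
    (σ₀ : Gal(AlgebraicClosure ℚ/ℚ) → Matrix (Fin s) (Fin s) (PadicAlgCl ℓ)) (k : ℕ)
    (A B : Submodule (PadicAlgCl ℓ) (Fin n → PadicAlgCl ℓ)) : Prop :=
  A ≤ B ∧ ∃ θ : (Fin n → PadicAlgCl ℓ) →ₗ[PadicAlgCl ℓ] (Fin s → PadicAlgCl ℓ),
    B.map θ = ⊤ ∧ (∀ x ∈ B, θ x = 0 ↔ x ∈ A) ∧
    (∀ g, IsInertia Q g → ∀ x ∈ B, mat ρ g *ᵥ x ∈ B ∧ θ (mat ρ g *ᵥ x) = σ₀ g *ᵥ θ x) ∧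
    ∀ x ∈ B, mat ρ σ *ᵥ x ∈ B ∧ θ (mat ρ σ *ᵥ x) = (p : PadicAlgCl ℓ) ^ k • (σ₀ σ *ᵥ θ x)

/-- `ρ` is at `p` up to semisimplification of type `Sp_m(σ₀)`, with some `σ₀` irreducible: the
representation of the decomposition group (generated by the inertia group and a Frobenius element
`σ`) has a filtration with the graded pieces `σ₀, σ₀(1), …, σ₀(m - 1)`, each of them once, in any
order. Nothing is said on the monodromy. -/
def SteinbergTypeAt (ρ : Gal(AlgebraicClosure ℚ/ℚ) →* GL (Fin n) (PadicAlgCl ℓ)) (p m : ℕ) :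
    Prop :=
  ∃ (Q : Ideal (𝓞 (AlgebraicClosure ℚ))) (σ : Gal(AlgebraicClosure ℚ/ℚ)) (s : ℕ),
    PrimeOver p Q ∧ IsFrobenius p Q σ ∧ 0 < s ∧
    ∃ (σ₀ : Gal(AlgebraicClosure ℚ/ℚ) → Matrix (Fin s) (Fin s) (PadicAlgCl ℓ))
      (e : Equiv.Perm (Fin m)) (F : ℕ → Submodule (PadicAlgCl ℓ) (Fin n → PadicAlgCl ℓ)),
      (∀ U : Submodule (PadicAlgCl ℓ) (Fin s → PadicAlgCl ℓ),
        (∀ g, g = σ ∨ IsInertia Q g → ∀ y ∈ U, σ₀ g *ᵥ y ∈ U) → U = ⊥ ∨ U = ⊤) ∧
      F 0 = ⊥ ∧ F m = ⊤ ∧ ∀ i : Fin m, IsTwist ρ p Q σ σ₀ (e i) (F i) (F (i + 1))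

theorem placeData {ρ : Gal(AlgebraicClosure ℚ/ℚ) →* GL (Fin n) (PadicAlgCl ℓ)}
    {ι : PadicAlgCl ℓ →+* ℂ} {b : Submodule (PadicAlgCl ℓ) (Fin n → PadicAlgCl ℓ) → ℝ}
    (hb : Pool.Agent.Zk53.SP.IsWeight ρ ι b) {p₀ m : ℕ} (hp₀ : p₀.Prime ∧ p₀ ≠ ℓ)
    (hst : SteinbergTypeAt ρ p₀ m) : ∃ s, Pool.Agent.Zk53.SP.PlaceData ρ b m s := by
  classical
  obtain ⟨Q, σ, s, hQ, hσ, hs, σ₀, e, F, hirr, hF0, hFm, hfac⟩ := hst
  have hle := fun i : Fin m => (hfac i).1
  choose θ hθ1 hθ2 hθ3 hθ4 using fun i : Fin m => (hfac i).2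
  have hfil : Pool.Agent.Y115.ST2.Fil
      (fun x : Pool.Agent.W569.FM.GF ℚ × PadicAlgCl ℓ => Pool.Agent.Y115.R.act ρ x.1)
      {x | x = (σ, (p₀ : PadicAlgCl ℓ)) ∨ ∃ g ∈ {g | IsInertia Q g}, x = (g, 1)} Prod.snd s m
      (fun x => Matrix.mulVecLin (σ₀ x.1)) (fun i => if h : i < m then (e ⟨i, h⟩ : ℕ) else 0) F
      (fun i => if h : i < m then θ ⟨i, h⟩ else 0) := by
    constructor
    · exact hF0
    · exact hFm
    · intro i hi
      exact hle ⟨i, hi⟩
    · intro i hi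
      rw [dif_pos hi]
      exact hθ1 ⟨i, hi⟩
    · intro i hi x hx
      rw [dif_pos hi]
      exact hθ2 ⟨i, hi⟩ x hx
    · rintro i hi _ (rfl | ⟨g, hg, rfl⟩) x hx
      · exact (hθ4 ⟨i, hi⟩ x hx).1
      · exact (hθ3 ⟨i, hi⟩ g hg x hx).1
    · rintro i hi _ (rfl | ⟨g, hg, rfl⟩) x hx
      · rw [dif_pos hi, dif_pos hi]
        exact (hθ4 ⟨i, hi⟩ x hx).2
      · rw [dif_pos hi, dif_pos hi]
        dsimp only
        rw [one_pow, one_smul]
        exact (hθ3 ⟨i, hi⟩ g hg x hx).2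
    · rintro _ (rfl | ⟨g, hg, rfl⟩)
      · exact Nat.cast_ne_zero.2 hp₀.1.ne_zero
      · exact one_ne_zero
    · intro U hU
      refine hirr U ?_
      rintro g (rfl | hg) y hy
      · exact hU (g, (p₀ : PadicAlgCl ℓ)) (Or.inl rfl) y hy
      · exact hU (g, 1) (Or.inr ⟨g, hg, rfl⟩) y hy
    · exact hs
  have he : ∀ i < m, (if h : i < m then (e ⟨i, h⟩ : ℕ) else 0) < m := by
    intro i hi
    rw [dif_pos hi]
    exact (e ⟨i, hi⟩).2
  have hinj : ∀ i < m, ∀ j < m, (if h : i < m then (e ⟨i, h⟩ : ℕ) else 0) =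
      (if h : j < m then (e ⟨j, h⟩ : ℕ) else 0) → i = j := by
    intro i hi j hj h
    rw [dif_pos hi, dif_pos hj] at h
    exact congrArg Fin.val (e.injective (Fin.ext h))
  exact ⟨s, Pool.Agent.Zk53.SP.placeData ρ ι hb hp₀ hQ.1 hQ.2 hσ (Or.inl rfl) hfil he hinj⟩

/-- **Constituents and irreducibility from several places of Steinberg type up to
semisimplification.**

Let complex numbers `S p` be given for the primes `p` (in the application the eigenvalues of the
Satake parameters `a_σ`, `σ = π_p ⊗ |det|^((1-n)/2)`, of an algebraic cuspidal automorphic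
representation `π` of `GL_n`), algebraic for the `p` in a set `T` of at least three primes, and such
that for one `p ∈ T` the quotients of the members of `S p` have absolute value less than `p`.  Let
`ℓ ∉ T`, and let `ρ` be continuous, attached to `S` at the primes in `T`, and at the primes `p ≠ ℓ`
of a finite nonempty set `J` of type `Sp_{m p}(σ₀)` up to semisimplification. Let `g` be the greatest
common divisor of the `m p`, `p ∈ J`. -/
theorem result (ℓ : ℕ) [Fact ℓ.Prime] {n : ℕ} (hn : 0 < n) (S : ℕ → Multiset ℂ) (T : Set ℕ)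
    (hT3 : 3 ≤ T.encard) (hT : ∀ p ∈ T, p.Prime ∧ p ≠ ℓ)
    (halg : ∀ p ∈ T, ∀ a ∈ S p, IsAlgebraic ℚ a)
    (hJS : ∃ p ∈ T, ∀ a ∈ S p, ∀ b ∈ S p, ‖a‖ < p * ‖b‖) (ι : PadicAlgCl ℓ →+* ℂ)
    (ρ : Gal(AlgebraicClosure ℚ/ℚ) →* GL (Fin n) (PadicAlgCl ℓ)) (hρ : Continuous ρ)
    (hS : ∀ p ∈ T, AttachedAt ρ ι p (S p)) (J : Finset ℕ) (hJ : J.Nonempty) (m : ℕ → ℕ)
    (hst : ∀ p ∈ J, p.Prime ∧ p ≠ ℓ ∧ SteinbergTypeAt ρ p (m p)) :
    (J.gcd m ≤ 2 → Irreducible ρ) ∧
    (Even (J.gcd m) → ∀ (c : ℕ) (V : ℕ → Submodule (PadicAlgCl ℓ) (Fin n → PadicAlgCl ℓ)),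
      (∀ i ≤ c, Stable ρ (V i)) → (∀ i < c, V i < V (i + 1)) → 2 * c ≤ J.gcd m) ∧
    (∀ U, Stable ρ U → n ∣ J.gcd m * Module.finrank (PadicAlgCl ℓ) U) ∧
    (Even (J.gcd m) → (∃ p ∈ T, ∀ a ∈ S p, ∀ b ∈ S p, ‖a‖ = ‖b‖) →
      ∀ U, Stable ρ U → 2 * n ∣ J.gcd m * Module.finrank (PadicAlgCl ℓ) U) := by
  classical
  obtain ⟨p₁, hp₁, hJS⟩ := hJS
  have hgood : ∀ p ∈ T, ∀ Q : Ideal (𝓞 (AlgebraicClosure ℚ)), Q.IsPrime →
      (p : 𝓞 (AlgebraicClosure ℚ)) ∈ Q → ∀ g, IsFrobenius p Q g →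
      ((mat ρ g⁻¹).charpoly.map ι).roots = S p :=
    fun p hp Q' hQ' hpQ' g hg => (hS p hp).frobenius Q' ⟨hQ', hpQ'⟩ g hg
  obtain ⟨b, hb, hwin⟩ := Pool.Agent.Y115.ST2.window ρ hρ ι T hT3 hT S hgood halg hp₁ hJS
  have hpl : ∀ p ∈ J, ∃ s, Pool.Agent.Zk53.SP.PlaceData ρ b (m p) s := fun p hp =>
    placeData hb ⟨(hst p hp).1, (hst p hp).2.1⟩ (hst p hp).2.2
  choose! s hs using hpl
  have hchain : Even (J.gcd m) → ∀ (c : ℕ)
      (V : ℕ → Submodule (PadicAlgCl ℓ) (Fin n → PadicAlgCl ℓ)),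
      (∀ i ≤ c, Stable ρ (V i)) → (∀ i < c, V i < V (i + 1)) → 2 * c ≤ J.gcd m := by
    intro hg c V hV hlt
    exact Pool.Agent.Zk53.SP.chain hn hJ hs hg hwin c V (fun i hi g x hx => hV i hi g x hx) hlt
  have hdim : ∀ U, Stable ρ U → n ∣ J.gcd m * Module.finrank (PadicAlgCl ℓ) U := by
    intro U hU
    exact Pool.Agent.Zk53.SP.dim_dvd hn hs (fun g x hx => hU g x hx)
  refine ⟨?_, hchain, hdim, ?_⟩
  · intro hg2
    refine ⟨hn, fun U hU => ?_⟩
    have hg0 := Pool.Agent.Zk53.SP.gcd_pos hn hJ hs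
    rcases (show J.gcd m = 1 ∨ J.gcd m = 2 by omega) with h1 | h1
    · have h2 := hdim U hU
      rw [h1, one_mul] at h2
      rcases Nat.eq_zero_or_pos (Module.finrank (PadicAlgCl ℓ) U) with h3 | h3
      · exact Or.inl (Submodule.finrank_eq_zero.1 h3)
      · right
        have h4 : n ≤ Module.finrank (PadicAlgCl ℓ) U := Nat.le_of_dvd h3 h2
        refine Submodule.eq_top_of_finrank_eq (le_antisymm (Submodule.finrank_le U) ?_)
        rw [Module.finrank_fin_fun]
        exact h4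
    · by_contra hcon
      push Not at hcon
      have h2 := hchain (by rw [h1]; exact even_two) 2
        (fun i => if i = 0 then ⊥ else if i = 1 then U else ⊤) (by
        intro i hi g x hx
        rcases i with _ | _ | i
        · simp only [if_true, Submodule.mem_bot] at hx ⊢
          rw [hx, mulVec_zero]
        · exact hU g x hx
        · exact Submodule.mem_top) (by
        intro i hi
        rcases i with _ | _ | i
        · exact bot_lt_iff_ne_bot.2 hcon.1
        · exact lt_top_iff_ne_top.2 hcon.2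
        · omega)
      omega
  · rintro hg ⟨p, hp, htemp⟩ U hU
    obtain ⟨c, hc⟩ := Pool.Agent.Zk53.SP.tempered ρ ι hb (hT p hp) (S p) (hgood p hp) htemp
    exact Pool.Agent.Zk53.SP.tempered_dvd hn hs hg hc (fun g x hx => hU g x hx)

end Pool.Agent.Results.MP_fa5bba_nt.SeveralSteinbergPlaces
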